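import Mathlib
import Pool.Agent.H9.Bry.Defs
import Pool.Agent.H15.HX.Defs

set_option autoImplicit false

namespace Pool.Agent.H15.HX

open Finset Pool.Agent.H9.Bry

theorem HexFree.k4free {F V : Type*} [Field F] [AddCommGroup V] [Module F V] {X : Set V}
    (hX : HexFree F X) (hc : IsCone F X) : K4Free F X := by
  intro Z hZ e g a hind h1 h2 h3 h4 h5 h6
  have hneg : ∀ u, MemMod F X Z u → MemMod F X Z (-u) := by
    rintro u ⟨x, hx, hu⟩
    refine ⟨(-1 : F) • x, hc _ _ hx, ?_⟩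
    have h : -u - (-1 : F) • x = -(u - x) := by
      rw [neg_one_smul]; abel
    rw [h]
    exact Submodule.neg_mem _ hu
  refine hX Z hZ e (a + g) (-a) (-1) (neg_ne_zero.2 one_ne_zero) ?_ h1 h5 (hneg _ h3) ?_ ?_ ?_
  · intro c₁ c₂ c₃ hm
    have h : c₁ • e + c₂ • (a + g) + c₃ • (-a) = c₁ • e + c₂ • g + (c₂ - c₃) • a := by
      rw [smul_add, smul_neg, sub_smul]; abel
    rw [h] at hm
    obtain ⟨k1, k2, k3⟩ := hind _ _ _ hm
    refine ⟨k1, k2, ?_⟩
    rw [k2, zero_sub, neg_eq_zero] at k3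
    exact k3
  · have h : e + (a + g) = a + e + g := by abel
    rw [h]; exact h6
  · have h : a + g + -a = g := by abel
    rw [h]; exact h2
  · have h : -a + (-1 : F) • e = -(a + e) := by
      rw [neg_one_smul]; abel
    rw [h]; exact hneg _ h4

theorem HexFree.mono {F V : Type*} [Field F] [AddCommGroup V] [Module F V] {X X' : Set V}
    (h : HexFree F X) (hX : X' ⊆ X) : HexFree F X' := by
  intro Z hZ e g a γ hγ hind h1 h2 h3 h4 h5 h6
  have key : ∀ u, MemMod F X' Z u → MemMod F X Z u := fun u ⟨x, hx, hu⟩ => ⟨x, hX hx, hu⟩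
  exact h Z (hZ.trans hX) e g a γ hγ hind (key _ h1) (key _ h2) (key _ h3) (key _ h4) (key _ h5)
    (key _ h6)

theorem HexFree.map {F V W : Type*} [Field F] [AddCommGroup V] [Module F V] [AddCommGroup W]
    [Module F W] (π : V →ₗ[F] W) {X Z₁ : Set V} (h : HexFree F X) (hZ : Z₁ ⊆ X)
    (hπ : ∀ z ∈ Z₁, π z = 0)
    (hker : ∀ u ∈ Submodule.span F X, π u = 0 → u ∈ Submodule.span F Z₁) :
    HexFree F (π '' X) := by
  intro Zb hZb e g a γ hγ hind h1 h2 h3 h4 h5 h6
  have himg : π '' (X ∩ π ⁻¹' Zb) = Zb := by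
    ext w
    constructor
    · rintro ⟨x, ⟨_, hx⟩, rfl⟩
      exact hx
    · intro hw
      obtain ⟨x, hx, rfl⟩ := hZb hw
      exact ⟨x, ⟨hx, hw⟩, rfl⟩
  have hlift : ∀ w ∈ Submodule.span F Zb, ∃ z ∈ Submodule.span F (X ∩ π ⁻¹' Zb), π z = w := by
    intro w hw
    rw [← himg, Submodule.span_image] at hw
    exact hw
  -- criterion
  have hcrit : ∀ u ∈ Submodule.span F X, π u ∈ Submodule.span F Zb →
      u ∈ Submodule.span F (Z₁ ∪ (X ∩ π ⁻¹' Zb)) := by
    intro u hu hpu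
    obtain ⟨z, hz, hzu⟩ := hlift _ hpu
    have h1 : u - z ∈ Submodule.span F Z₁ := by
      refine hker _ (Submodule.sub_mem _ hu (Submodule.span_mono Set.inter_subset_left hz)) ?_
      rw [map_sub, hzu, sub_self]
    have h2 : u = (u - z) + z := by abel
    rw [h2]
    exact Submodule.add_mem _ (Submodule.span_mono Set.subset_union_left h1)
      (Submodule.span_mono Set.subset_union_right hz)
  have hconv : ∀ u ∈ Submodule.span F (Z₁ ∪ (X ∩ π ⁻¹' Zb)), π u ∈ Submodule.span F Zb := by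
    intro u hu
    have : Submodule.span F (Z₁ ∪ (X ∩ π ⁻¹' Zb)) ≤ (Submodule.span F Zb).comap π := by
      rw [Submodule.span_le]
      rintro z (hz | hz)
      · simp [hπ z hz]
      · exact Submodule.subset_span hz.2
    exact this hu
  have hex : ∀ w, MemMod F (π '' X) Zb w → ∃ u ∈ Submodule.span F X, π u = w := by
    rintro w ⟨_, ⟨x, hx, rfl⟩, hw⟩
    obtain ⟨z, hz, hzu⟩ := hlift _ hw
    refine ⟨x + z, Submodule.add_mem _ (Submodule.subset_span hx)
      (Submodule.span_mono Set.inter_subset_left hz), ?_⟩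
    rw [map_add, hzu]
    abel
  have hmm : ∀ u ∈ Submodule.span F X, MemMod F (π '' X) Zb (π u) →
      MemMod F X (Z₁ ∪ (X ∩ π ⁻¹' Zb)) u := by
    rintro u hu ⟨_, ⟨x, hx, rfl⟩, hw⟩
    refine ⟨x, hx, hcrit _ (Submodule.sub_mem _ hu (Submodule.subset_span hx)) ?_⟩
    rw [map_sub]
    exact hw
  obtain ⟨e', he', rfl⟩ := hex e h1
  obtain ⟨g', hg', rfl⟩ := hex g h2
  obtain ⟨a', ha', rfl⟩ := hex a h3
  refine h (Z₁ ∪ (X ∩ π ⁻¹' Zb)) (Set.union_subset hZ Set.inter_subset_left) e' g' a' γ hγ ?_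
    (hmm _ he' h1) (hmm _ hg' h2) (hmm _ ha' h3) (hmm _ (Submodule.add_mem _ he' hg') ?_)
    (hmm _ (Submodule.add_mem _ hg' ha') ?_)
    (hmm _ (Submodule.add_mem _ ha' (Submodule.smul_mem _ _ he')) ?_)
  · intro c₁ c₂ c₃ hc
    have := hconv _ hc
    simp only [map_add, map_smul] at this
    exact hind c₁ c₂ c₃ this
  · rw [map_add]; exact h4
  · rw [map_add]; exact h5
  · rw [map_add, map_smul]; exact h6

end Pool.Agent.H15.HX
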